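import Pool.Agent.REV.StmtsV3

set_option autoImplicit false

/-!
# REV, row VK3: upper bound of the double step for `n = 3` (after row VKU of helper77)
-/

open MeasureTheory Set Filter
open scoped Topology

namespace Pool.Agent.REV.H60

open Pool.Agent.REV

theorem vk3_ind (g : ℝ → ℝ) (hg : ContinuousOn g (Ioi 0)) :
    Measurable ((Ioi (0 : ℝ)).indicator g) := by
  classical
  rw [← piecewise_eq_indicator]
  exact hg.measurable_piecewise continuousOn_const measurableSet_Ioi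

/-- the inner integral -/
theorem vk3_inner
    (hI : IntervalIntegrable (fun u : ℝ => (1 - u ^ 2) ^ (-(1 / 2) : ℝ)) volume 0 1)
    (hJ : J0 3 = (∫ u in (0 : ℝ)..1, (1 - u ^ 2) ^ (-(1 / 2) : ℝ))) (x : ℝ) (hx : 0 < x) :
    0 ≤ (∫ u in Ioo (0 : ℝ) (min 1 x), 1 * (1 - u ^ 2) ^ (-(1 / 2) : ℝ)) ∧
    (∫ u in Ioo (0 : ℝ) (min 1 x), 1 * (1 - u ^ 2) ^ (-(1 / 2) : ℝ)) ≤ J0 3 * min 1 x := by
  simp only [one_mul]
  obtain ⟨y, hy⟩ : ∃ y, y = min 1 x := ⟨_, rfl⟩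
  have hy0 : 0 < y := by rw [hy]; exact lt_min one_pos hx
  have hy1 : y ≤ 1 := by rw [hy]; exact min_le_left _ _
  rw [← hy]
  constructor
  · refine setIntegral_nonneg measurableSet_Ioo fun u hu => ?_
    have h1 : 0 ≤ 1 - u ^ 2 := by nlinarith [hu.1, hu.2]
    exact Real.rpow_nonneg h1 _
  · have e1 : (∫ u in Ioo (0 : ℝ) y, (1 - u ^ 2) ^ (-(1 / 2) : ℝ)) =
        ∫ u in (0 : ℝ)..y, (1 - u ^ 2) ^ (-(1 / 2) : ℝ) := by
      rw [intervalIntegral.integral_of_le hy0.le, integral_Ioc_eq_integral_Ioo]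
    have e2 := intervalIntegral.integral_comp_mul_left (a := (0 : ℝ)) (b := 1)
      (fun u : ℝ => (1 - u ^ 2) ^ (-(1 / 2) : ℝ)) hy0.ne'
    rw [mul_zero, mul_one, smul_eq_mul] at e2
    have hI' : IntervalIntegrable (fun u : ℝ => (1 - u ^ 2) ^ (-(1 / 2) : ℝ)) volume 0 y := by
      refine hI.mono_set ?_
      rw [uIcc_of_le hy0.le, uIcc_of_le zero_le_one]
      exact Icc_subset_Icc le_rfl hy1
    have hI2 : IntervalIntegrable (fun v : ℝ => (1 - (y * v) ^ 2) ^ (-(1 / 2) : ℝ)) volume 0 1 := by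
      have h := hI'.comp_mul_left (c := y)
      rw [zero_div, div_self hy0.ne'] at h
      exact h
    have e3 : (∫ v in (0 : ℝ)..1, (1 - (y * v) ^ 2) ^ (-(1 / 2) : ℝ)) ≤ J0 3 := by
      rw [hJ]
      refine intervalIntegral.integral_mono_on_of_le_Ioo zero_le_one hI2 hI fun v hv => ?_
      have h1 : 0 < 1 - v ^ 2 := by nlinarith [hv.1, hv.2]
      have h2 : 1 - v ^ 2 ≤ 1 - (y * v) ^ 2 := by
        have h3 : y * v ≤ v := by nlinarith [hv.1]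
        have h4 : 0 ≤ y * v := mul_nonneg hy0.le hv.1.le
        nlinarith
      exact Real.rpow_le_rpow_of_nonpos h1 h2 (by norm_num)
    have e4 : (∫ u in (0 : ℝ)..y, (1 - u ^ 2) ^ (-(1 / 2) : ℝ)) =
        y * ∫ v in (0 : ℝ)..1, (1 - (y * v) ^ 2) ^ (-(1 / 2) : ℝ) := by
      rw [e2]
      field_simp
    rw [e1, e4, mul_comm (J0 3)]
    exact mul_le_mul_of_nonneg_left e3 hy0.le

/-- **VK3** -/
theorem vk3 (vd3 : Vd3Stmt) (vm3 : Vm3Stmt) (vn3 : Vn3Stmt) (vs3 : Vs3Stmt) : Vk3Stmt := by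
  intro C σ0 σ1 f0 f1 f2 hC hσ0 hσ1 hf0 hf1 hf2 h01 h12 b hb
  obtain ⟨hJ0, hJi, hJe, vsw⟩ := vs3
  have hc3 : c3 3 C = C / 2 := by
    unfold c3
    norm_num
  have hc30 : 0 < c3 3 C := by
    rw [hc3]
    linarith
  obtain ⟨hd0, -, hcont0⟩ := vd3 f0 hf0
  obtain ⟨hd1, -, -⟩ := vd3 f1 hf1
  obtain ⟨-, -, -, -, -, -, hint0, -, -⟩ := vm3 f0 hf0
  obtain ⟨-, -, hR1, hy1, -, -, -, -, -⟩ := vm3 f1 hf1
  obtain ⟨hne0, -⟩ := vn3 C σ0 f0 f1 hC.le hσ0.le hf0 hf1 h01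
  obtain ⟨hne1, -⟩ := vn3 C σ1 f1 f2 hC.le hσ1.le hf1 hf2 h12
  obtain ⟨-, hyb, -, -⟩ := hne1 b hb
  have hDeq : ∀ β ∈ Ioi (0 : ℝ), (Ioi (0 : ℝ)).indicator (dph 3 f0) β = dph 3 f0 β :=
    fun β hβ => indicator_of_mem hβ _
  have hDint : IntegrableOn ((Ioi (0 : ℝ)).indicator (dph 3 f0)) (Ioi 0) :=
    (integrableOn_congr_fun hDeq measurableSet_Ioi).2 hint0
  obtain ⟨hsi, hse⟩ := vsw b 1 ((Ioi (0 : ℝ)).indicator (dph 3 f0)) (fun _ => 1) hb
    (vk3_ind _ hcont0) measurable_const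
    (fun β hβ => by
      rw [hDeq β hβ]
      exact (hd0 β hβ).2.2.2) hDint (fun s _ => ⟨zero_le_one, le_refl _⟩)
  have hb1 : 0 < 1 / b := by positivity
  -- the inner function is `zb f1`
  have hz : ∀ s ∈ Ioi (1 / b), σ0 * c3 3 C * ((s ^ 2)⁻¹ * 1 *
      ∫ β in Ioi (1 / s), wb s β ^ (-(1 / 2) : ℝ) *
        (β⁻¹ * (Ioi (0 : ℝ)).indicator (dph 3 f0) β)) = (s ^ 2)⁻¹ * zb 3 f1 s := by
    intro s hs
    have hs0 : 0 < s := hb1.trans hs
    obtain ⟨-, -, -, h4⟩ := hne0 s hs0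
    have h5 : (∫ β in Ioi (1 / s), wb s β ^ (-(1 / 2) : ℝ) *
        (β⁻¹ * (Ioi (0 : ℝ)).indicator (dph 3 f0) β)) =
        ∫ β in Ioi (1 / s), wb s β ^ (-(1 / 2) : ℝ) * (β⁻¹ * dph 3 f0 β) := by
      refine setIntegral_congr_fun measurableSet_Ioi fun β hβ => ?_
      have h1s : 0 < 1 / s := by positivity
      have hβ0 : β ∈ Ioi (0 : ℝ) := h1s.trans hβ
      change wb s β ^ (-(1 / 2) : ℝ) * (β⁻¹ * (Ioi (0 : ℝ)).indicator (dph 3 f0) β) =
        wb s β ^ (-(1 / 2) : ℝ) * (β⁻¹ * dph 3 f0 β)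
      rw [hDeq β hβ0]
    rw [h5, h4]
    ring
  obtain ⟨K, hK⟩ : ∃ K : ℝ, K = 2 * RA 3 f1 1 * (σ0 * c3 3 C) := ⟨_, rfl⟩
  have hK0 : 0 ≤ K := by
    rw [hK]
    positivity
  have step1 : (∫ β in Ioi (1 / b), wb b β ^ (1 / 2 : ℝ) * (β * dph 3 f1 β)) ≤
      ∫ s in Ioi (1 / b), K * ((s ^ 2)⁻¹ * 1 *
      ∫ β in Ioi (1 / s), wb s β ^ (-(1 / 2) : ℝ) *
        (β⁻¹ * (Ioi (0 : ℝ)).indicator (dph 3 f0) β)) := by
    have hpt : ∀ s ∈ Ioi (1 / b), 0 ≤ wb b s ^ (1 / 2 : ℝ) * (s * dph 3 f1 s) ∧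
        wb b s ^ (1 / 2 : ℝ) * (s * dph 3 f1 s) ≤ K * ((s ^ 2)⁻¹ * 1 *
        ∫ β in Ioi (1 / s), wb s β ^ (-(1 / 2) : ℝ) *
        (β⁻¹ * (Ioi (0 : ℝ)).indicator (dph 3 f0) β)) := by
      intro s hs
      have hs0 : 0 < s := hb1.trans hs
      have hbs : 1 < b * s := by
        have h1 : 1 / b < s := hs
        rw [div_lt_iff₀ hb] at h1
        linarith
      have hbs2 : 1 ≤ (b * s) ^ 2 := by nlinarith
      have hw0 : 0 ≤ wb b s := by
        unfold wb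
        have := inv_le_one_of_one_le₀ hbs2
        linarith
      have hw1 : wb b s ≤ 1 := by
        unfold wb
        have : 0 ≤ ((b * s) ^ 2)⁻¹ := by positivity
        linarith
      have hw2 : wb b s ^ (1 / 2 : ℝ) ≤ 1 := Real.rpow_le_one hw0 hw1 (by norm_num)
      have hw3 : 0 ≤ wb b s ^ (1 / 2 : ℝ) := Real.rpow_nonneg hw0 _
      obtain ⟨-, -, hz0, hdp⟩ := hd1 s hs0
      obtain ⟨hy0, hyR⟩ := hy1 s hs0.le
      refine ⟨mul_nonneg hw3 (mul_nonneg hs0.le hdp), ?_⟩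
      have hzz := hz s hs
      have e2 : K * ((s ^ 2)⁻¹ * 1 *
          ∫ β in Ioi (1 / s), wb s β ^ (-(1 / 2) : ℝ) *
          (β⁻¹ * (Ioi (0 : ℝ)).indicator (dph 3 f0) β)) =
          2 * RA 3 f1 1 * ((s ^ 2)⁻¹ * zb 3 f1 s) := by
        rw [← hzz, hK]
        ring
      rw [e2]
      have e3 : s * dph 3 f1 s = 2 * yb 3 f1 s * ((s ^ 2)⁻¹ * zb 3 f1 s) := by
        unfold dph
        have h32 : (3 : ℕ) - 2 = 1 := rfl
        rw [h32, pow_one]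
        push_cast
        field_simp
        ring
      calc wb b s ^ (1 / 2 : ℝ) * (s * dph 3 f1 s) ≤ 1 * (s * dph 3 f1 s) :=
            mul_le_mul_of_nonneg_right hw2 (mul_nonneg hs0.le hdp)
        _ = 2 * yb 3 f1 s * ((s ^ 2)⁻¹ * zb 3 f1 s) := by
            rw [one_mul, e3]
        _ ≤ 2 * RA 3 f1 1 * ((s ^ 2)⁻¹ * zb 3 f1 s) :=
            mul_le_mul_of_nonneg_right (mul_le_mul_of_nonneg_left hyR (by norm_num))
              (by positivity)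
    refine integral_mono_of_nonneg ?_ (hsi.const_mul K) ?_
    · filter_upwards [ae_restrict_mem measurableSet_Ioi] with s hs
      exact (hpt s hs).1
    · filter_upwards [ae_restrict_mem measurableSet_Ioi] with s hs
      exact (hpt s hs).2
  rw [integral_const_mul, hse] at step1
  have hmint : IntegrableOn (fun β : ℝ => min 1 (b / β) * dph 3 f0 β) (Ioi 0) := by
    refine Integrable.bdd_mul (c := 1) hint0 ?_ ?_
    · exact (measurable_const.min (measurable_const.div measurable_id)).aestronglyMeasurable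
    · filter_upwards [ae_restrict_mem measurableSet_Ioi] with β hβ
      have hβ0 : (0 : ℝ) < β := hβ
      have h1 : 0 ≤ min 1 (b / β) := le_min zero_le_one (by positivity)
      rw [Real.norm_eq_abs, abs_of_nonneg h1]
      exact min_le_left _ _
  have step2 : (∫ β in Ioi (0 : ℝ), (Ioi (0 : ℝ)).indicator (dph 3 f0) β *
      ∫ u in Ioo (0 : ℝ) (min 1 (b / β)), 1 * (1 - u ^ 2) ^ (-(1 / 2) : ℝ)) ≤
      J0 3 * ∫ β in Ioi (0 : ℝ), min 1 (b / β) * dph 3 f0 β := by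
    rw [← integral_const_mul]
    refine integral_mono_of_nonneg ?_ (hmint.const_mul (J0 3)) ?_
    · filter_upwards [ae_restrict_mem measurableSet_Ioi] with β hβ
      have hβ0 : (0 : ℝ) < β := hβ
      refine mul_nonneg ?_ (vk3_inner hJi hJe (b / β) (by positivity)).1
      rw [hDeq β hβ]
      exact (hd0 β hβ).2.2.2
    · filter_upwards [ae_restrict_mem measurableSet_Ioi] with β hβ
      have hβ0 : (0 : ℝ) < β := hβ
      rw [hDeq β hβ, mul_comm, ← mul_assoc]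
      exact mul_le_mul_of_nonneg_right (vk3_inner hJi hJe (b / β) (by positivity)).2
        (hd0 β hβ).2.2.2
  rw [hyb]
  calc σ1 * c3 3 C * ∫ β in Ioi (1 / b), wb b β ^ (1 / 2 : ℝ) * (β * dph 3 f1 β)
      ≤ σ1 * c3 3 C * (K * (J0 3 * ∫ β in Ioi (0 : ℝ), min 1 (b / β) * dph 3 f0 β)) :=
        mul_le_mul_of_nonneg_left (step1.trans (mul_le_mul_of_nonneg_left step2 hK0))
          (by positivity)
    _ = σ0 * σ1 * C * c3 3 C * J0 3 * RA 3 f1 1 *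
        ∫ β in Ioi (0 : ℝ), min 1 (b / β) * dph 3 f0 β := by
        generalize ∫ β in Ioi (0 : ℝ), min 1 (b / β) * dph 3 f0 β = J
        rw [hK, hc3]
        ring

end Pool.Agent.REV.H60
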