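import Pool.Agent.REV.StmtsG4

/-!
# Squad REV, row LWV3: the law of the height on the unit sphere of `u^⊥`, all functions, `n ≥ 3`
(copy of row LWV by helper49)
-/

set_option autoImplicit false

open MeasureTheory Module Set Filter
open scoped RealInnerProductSpace Pointwise Topology ENNReal

namespace Pool.Agent.REV.H60

open Pool.Agent.BPH

theorem lwv3_ii {a : ℝ} (ha : -1 < a) :
    IntervalIntegrable (fun x : ℝ => (1 - x ^ 2) ^ a) volume (-1) 1 := by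
  have h0 : IntervalIntegrable (fun x : ℝ => (1 - x) ^ a) volume 0 1 := by
    have h := (intervalIntegral.intervalIntegrable_rpow' ha :
      IntervalIntegrable (fun x : ℝ => x ^ a) volume 0 1).comp_sub_left 1
    rw [sub_zero, sub_self] at h
    exact h.symm
  have hc : ContinuousOn (fun x : ℝ => (1 + x) ^ a) (uIcc 0 1) := by
    refine ContinuousOn.rpow_const (by fun_prop) fun x hx => Or.inl ?_
    rw [uIcc_of_le zero_le_one] at hx
    have := hx.1
    linarith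
  have h1 : IntervalIntegrable (fun x : ℝ => (1 - x ^ 2) ^ a) volume 0 1 := by
    have h := h0.mul_continuousOn hc
    rw [intervalIntegrable_iff_integrableOn_Ioc_of_le zero_le_one] at h ⊢
    refine h.congr_fun (fun x hx => ?_) measurableSet_Ioc
    show (1 - x) ^ a * (1 + x) ^ a = (1 - x ^ 2) ^ a
    rw [← Real.mul_rpow (by linarith [hx.2]) (by linarith [hx.1])]
    congr 1
    ring
  have h2 : IntervalIntegrable (fun x : ℝ => (1 - x ^ 2) ^ a) volume (-1) 0 := by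
    have h := h1.comp_sub_left 0
    rw [sub_zero, zero_sub] at h
    have h3 : (fun x : ℝ => (1 - (0 - x) ^ 2) ^ a) = fun x : ℝ => (1 - x ^ 2) ^ a := by
      funext x
      rw [zero_sub, neg_sq]
    rw [h3] at h
    exact h.symm
  exact h2.trans h1

theorem lwv3 (msu : MsuStmt) (lwh3 : Lwh3Stmt) : Lwv3Stmt := by
  intro E _ _ _ _ _ hn
  set a : ℝ := ((finrank ℝ E : ℝ) - 4) / 2 with ha
  have ha0 : -1 < a := by
    have : (3 : ℝ) ≤ finrank ℝ E := by exact_mod_cast hn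
    rw [ha]
    linarith
  set w : ℝ → ℝ := fun x => (1 - x ^ 2) ^ a with hw
  have hpos : 0 < ∫ x in (-1 : ℝ)..1, w x := by
    refine intervalIntegral.intervalIntegral_pos_of_pos_on (lwv3_ii ha0) ?_
      (by norm_num)
    intro x hx
    refine Real.rpow_pos_of_pos ?_ _
    nlinarith [hx.1, hx.2]
  refine ⟨(∫ x in (-1 : ℝ)..1, w x)⁻¹, inv_pos.2 hpos, ?_⟩
  intro u e' hu he hue ψ hψ
  have hu0 : u ≠ 0 := by
    intro h
    rw [h, norm_zero] at hu
    exact zero_ne_one hu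
  have hfin : finrank ℝ (ℝ ∙ u)ᗮ = finrank ℝ E - 1 := by
    have h1 := Submodule.finrank_add_finrank_orthogonal (ℝ ∙ u)
    rw [finrank_span_singleton hu0] at h1
    omega
  have hmem : e' ∈ (ℝ ∙ u)ᗮ := by
    rw [Submodule.mem_orthogonal_singleton_iff_inner_right]
    exact hue
  have hne : (ℝ ∙ u)ᗮ ≠ ⊥ := by
    intro h
    rw [h, Submodule.mem_bot] at hmem
    rw [hmem, norm_zero] at he
    exact zero_ne_one he
  have hT : Tst (fun x : E => ψ ⟪e', x⟫) := by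
    obtain ⟨C, hC⟩ := hψ.2
    exact ⟨hψ.1.comp (by fun_prop), C, fun x => hC _⟩
  rw [msu (ℝ ∙ u)ᗮ hne _ hT]
  have hL := lwh3 (ℝ ∙ u)ᗮ (by omega) ⟨e', hmem⟩ he ψ hψ
  have hexp : (((finrank ℝ (ℝ ∙ u)ᗮ : ℕ) : ℝ) - 3) / 2 = a := by
    rw [hfin, Nat.cast_sub (by omega), ha]
    push_cast
    ring
  rw [hexp] at hL
  show ∫ y : (ℝ ∙ u)ᗮ, ψ ⟪e', (y : E)⟫ ∂sph (ℝ ∙ u)ᗮ =
    (∫ x in (-1 : ℝ)..1, w x)⁻¹ * ∫ x in (-1 : ℝ)..1, w x * ψ x
  have hL' : (∫ x in (-1 : ℝ)..1, w x) * ∫ y : (ℝ ∙ u)ᗮ, ψ ⟪e', (y : E)⟫ ∂sph (ℝ ∙ u)ᗮ =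
      ∫ x in (-1 : ℝ)..1, w x * ψ x := hL
  rw [← hL']
  field_simp

end Pool.Agent.REV.H60
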