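import Pool.Agent.REV.StmtsV

set_option autoImplicit false

/-!
# Squad REV (MP_bbfd73_gt), row VSW: the swap
-/

namespace Pool.Agent.REV.H60

open Pool.Agent.REV Set MeasureTheory Filter
open scoped Topology

theorem vsw_img {b β : ℝ} (hb : 0 < b) (hβ : 0 < β) :
    (fun u : ℝ => 1 / (u * β)) '' Ioo (0 : ℝ) (min 1 (b / β)) = Ioi (max (1 / b) (1 / β)) := by
  ext s
  constructor
  · rintro ⟨u, ⟨hu0, hu1⟩, rfl⟩
    have h1 : u < 1 := hu1.trans_le (min_le_left _ _)
    have h2 : u < b / β := hu1.trans_le (min_le_right _ _)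
    have h3 : u * β < b := (lt_div_iff₀ hβ).1 h2
    have h4 : 0 < u * β := mul_pos hu0 hβ
    show max (1 / b) (1 / β) < 1 / (u * β)
    refine max_lt ?_ ?_
    · exact one_div_lt_one_div_of_lt h4 h3
    · refine one_div_lt_one_div_of_lt h4 ?_
      nlinarith
  · intro hs
    have h1 : 1 / b < s := (le_max_left _ _).trans_lt hs
    have h2 : 1 / β < s := (le_max_right _ _).trans_lt hs
    have hs0 : 0 < s := (one_div_pos.2 hb).trans h1
    refine ⟨1 / (s * β), ⟨by positivity, lt_min ?_ ?_⟩, ?_⟩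
    · rw [div_lt_one (by positivity)]
      rw [div_lt_iff₀ hβ] at h2
      exact h2
    · rw [div_lt_div_iff₀ (by positivity) hβ]
      rw [div_lt_iff₀ hb] at h1
      nlinarith
    · show 1 / (1 / (s * β) * β) = s
      field_simp

theorem vsw_subst {b β μ : ℝ} (hb : 0 < b) (hβ : 0 < β) (W : ℝ → ℝ) :
    ∫ s in Ioi (max (1 / b) (1 / β)), (s ^ 2)⁻¹ * W s * wb s β ^ μ =
      β * ∫ u in Ioo (0 : ℝ) (min 1 (b / β)), W (1 / (u * β)) * (1 - u ^ 2) ^ μ := by
  rw [← vsw_img hb hβ, integral_image_eq_integral_abs_deriv_smul measurableSet_Ioo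
    (f' := fun u => -(β / (u * β) ^ 2)), ← integral_const_mul]
  · refine setIntegral_congr_fun measurableSet_Ioo fun u hu => ?_
    have hu0 : 0 < u := hu.1
    have h1 : wb (1 / (u * β)) β = 1 - u ^ 2 := by
      unfold wb
      congr 1
      field_simp
    show |-(β / (u * β) ^ 2)| • (((1 / (u * β)) ^ 2)⁻¹ * W (1 / (u * β)) *
      wb (1 / (u * β)) β ^ μ) = β * (W (1 / (u * β)) * (1 - u ^ 2) ^ μ)
    rw [h1, abs_neg, abs_of_pos (by positivity), smul_eq_mul]
    have h2 : ((1 / (u * β)) ^ 2)⁻¹ = (u * β) ^ 2 := by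
      rw [one_div, inv_pow, inv_inv]
    rw [h2]
    field_simp
  · intro u hu
    have hu0 : 0 < u := hu.1
    have h1 : HasDerivAt (fun u : ℝ => u * β) β u := by
      simpa using (hasDerivAt_id u).mul_const β
    have h2 := h1.inv (mul_pos hu0 hβ).ne'
    have h3 : (fun u : ℝ => 1 / (u * β)) = fun u : ℝ => (u * β)⁻¹ := by
      funext u
      rw [one_div]
    rw [h3]
    have h4 : -(β / (u * β) ^ 2) = -β / (u * β) ^ 2 := by ring
    rw [h4]
    exact h2.hasDerivWithinAt
  · intro u hu v hv h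
    have hu0 : 0 < u := hu.1
    have hv0 : 0 < v := hv.1
    have h1 : 1 / (u * β) = 1 / (v * β) := h
    rw [div_eq_div_iff (by positivity) (by positivity), one_mul, one_mul] at h1
    exact (mul_right_cancel₀ hβ.ne' h1).symm

theorem vsw_wb {s β : ℝ} (hs : 0 < s) (h : 1 / s < β) : 0 ≤ wb s β ∧ wb s β ≤ 1 := by
  have h1 : 1 < s * β := by
    rw [div_lt_iff₀ hs] at h
    linarith [mul_comm β s]
  have h2 : 1 < (s * β) ^ 2 := by nlinarith
  unfold wb
  constructor
  · have h3 : ((s * β) ^ 2)⁻¹ ≤ 1 := inv_le_one_of_one_le₀ h2.le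
    linarith
  · have h3 : 0 ≤ ((s * β) ^ 2)⁻¹ := by positivity
    linarith

theorem vsw : VswStmt := by
  classical
  intro n b M D W hn hb hDm hWm hD0 hDi hW
  obtain ⟨μ, hμ⟩ : ∃ μ, μ = ((n : ℝ) - 4) / 2 := ⟨_, rfl⟩
  have hμ0 : 0 ≤ μ := by
    have h : (4 : ℝ) ≤ n := by exact_mod_cast hn
    rw [hμ]
    linarith
  rw [← hμ]
  have hM : 0 ≤ M := (hW 1 one_pos).1.trans (hW 1 one_pos).2
  have hb' : 0 < 1 / b := one_div_pos.2 hb
  let F : ℝ → ℝ → ℝ := fun s β =>
    if 1 / s < β then (s ^ 2)⁻¹ * W s * (wb s β ^ μ * (β⁻¹ * D β)) else 0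
  have hFm : Measurable (Function.uncurry F) := by
    have h : Measurable fun p : ℝ × ℝ =>
        if 1 / p.1 < p.2 then (p.1 ^ 2)⁻¹ * W p.1 * (wb p.1 p.2 ^ μ * (p.2⁻¹ * D p.2)) else 0 := by
      refine Measurable.ite (measurableSet_lt (by fun_prop) measurable_snd) ?_ measurable_const
      unfold wb
      fun_prop
    exact h
  have hF0 : ∀ s β, 0 < s → 0 < β → 0 ≤ F s β := by
    intro s β hs hβ
    show 0 ≤ if 1 / s < β then (s ^ 2)⁻¹ * W s * (wb s β ^ μ * (β⁻¹ * D β)) else 0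
    split_ifs with h
    · have h1 := (vsw_wb hs h).1
      have h2 := hD0 β hβ
      have h3 := (hW s hs).1
      have h4 : 0 ≤ wb s β ^ μ := Real.rpow_nonneg h1 _
      positivity
    · exact le_rfl
  have hFle : ∀ s β, 0 < s → 0 < β → F s β ≤ M * (β⁻¹ * D β) * (s ^ 2)⁻¹ := by
    intro s β hs hβ
    have h2 := hD0 β hβ
    have h5 : 0 ≤ β⁻¹ * D β := by positivity
    show (if 1 / s < β then (s ^ 2)⁻¹ * W s * (wb s β ^ μ * (β⁻¹ * D β)) else 0) ≤ _
    split_ifs with h
    · obtain ⟨h1, h1'⟩ := vsw_wb hs h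
      have h3 := (hW s hs).1
      have h3' := (hW s hs).2
      have h4 : 0 ≤ wb s β ^ μ := Real.rpow_nonneg h1 _
      have h4' : wb s β ^ μ ≤ 1 := Real.rpow_le_one h1 h1' hμ0
      have h6 : W s * wb s β ^ μ ≤ M * 1 := mul_le_mul h3' h4' h4 hM
      have h7 : 0 ≤ (s ^ 2)⁻¹ * (β⁻¹ * D β) := by positivity
      calc (s ^ 2)⁻¹ * W s * (wb s β ^ μ * (β⁻¹ * D β))
          = (W s * wb s β ^ μ) * ((s ^ 2)⁻¹ * (β⁻¹ * D β)) := by ring
        _ ≤ (M * 1) * ((s ^ 2)⁻¹ * (β⁻¹ * D β)) := mul_le_mul_of_nonneg_right h6 h7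
        _ = M * (β⁻¹ * D β) * (s ^ 2)⁻¹ := by ring
    · positivity
  -- the fibre integrals
  have hsq : IntegrableOn (fun s : ℝ => (s ^ 2)⁻¹) (Ioi (1 / b)) := by
    have h := integrableOn_Ioi_rpow_of_lt (show (-2 : ℝ) < -1 by norm_num) hb'
    refine h.congr_fun (fun s hs => ?_) measurableSet_Ioi
    have hs0 : 0 < s := hb'.trans hs
    show s ^ (-2 : ℝ) = (s ^ 2)⁻¹
    rw [Real.rpow_neg hs0.le]
    norm_num
  have hfibi : ∀ β, 0 < β → Integrable (fun s => F s β) (volume.restrict (Ioi (1 / b))) := by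
    intro β hβ
    refine Integrable.mono' (hsq.const_mul (M * (β⁻¹ * D β)))
      (hFm.comp (measurable_id.prodMk measurable_const)).aestronglyMeasurable ?_
    refine (ae_restrict_iff' measurableSet_Ioi).2 (Filter.Eventually.of_forall fun s hs => ?_)
    have hs0 : 0 < s := hb'.trans hs
    rw [Real.norm_of_nonneg (hF0 s β hs0 hβ)]
    exact hFle s β hs0 hβ
  have hfib : ∀ β, 0 < β → ∫ s in Ioi (1 / b), F s β =
      D β * ∫ u in Ioo (0 : ℝ) (min 1 (b / β)), W (1 / (u * β)) * (1 - u ^ 2) ^ μ := by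
    intro β hβ
    have h1 : ∫ s in Ioi (1 / b), F s β = ∫ s in Ioi (1 / b),
        (Ioi (1 / β)).indicator (fun s => ((s ^ 2)⁻¹ * W s * wb s β ^ μ) * (β⁻¹ * D β)) s := by
      refine setIntegral_congr_fun measurableSet_Ioi fun s hs => ?_
      have hs0 : 0 < s := hb'.trans hs
      show (if 1 / s < β then (s ^ 2)⁻¹ * W s * (wb s β ^ μ * (β⁻¹ * D β)) else 0) = _
      by_cases h : 1 / s < β
      · have h' : s ∈ Ioi (1 / β) := by
          rw [mem_Ioi, div_lt_iff₀ hβ]
          rw [div_lt_iff₀ hs0] at h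
          linarith [mul_comm β s]
        rw [if_pos h, indicator_of_mem h']
        ring
      · have h' : s ∉ Ioi (1 / β) := by
          intro h'
          apply h
          rw [mem_Ioi, div_lt_iff₀ hβ] at h'
          rw [div_lt_iff₀ hs0]
          linarith [mul_comm β s]
        rw [if_neg h, indicator_of_notMem h']
    rw [h1, setIntegral_indicator measurableSet_Ioi, Ioi_inter_Ioi, integral_mul_const,
      vsw_subst hb hβ]
    field_simp
  have hI : ∀ β, 0 < β →
      (∫ u in Ioo (0 : ℝ) (min 1 (b / β)), W (1 / (u * β)) * (1 - u ^ 2) ^ μ) ≤ M := by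
    intro β hβ
    have h1 : ‖∫ u in Ioo (0 : ℝ) (min 1 (b / β)), W (1 / (u * β)) * (1 - u ^ 2) ^ μ‖ ≤
        M * volume.real (Ioo (0 : ℝ) (min 1 (b / β))) := by
      refine norm_setIntegral_le_of_norm_le_const measure_Ioo_lt_top fun u hu => ?_
      have hu0 : 0 < u := hu.1
      have hu1 : u < 1 := hu.2.trans_le (min_le_left _ _)
      have h2 := hW (1 / (u * β)) (by positivity)
      have h3 : 0 ≤ 1 - u ^ 2 := by nlinarith
      have h4 : 1 - u ^ 2 ≤ 1 := by nlinarith
      have h5 : 0 ≤ (1 - u ^ 2) ^ μ := Real.rpow_nonneg h3 _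
      have h6 : (1 - u ^ 2) ^ μ ≤ 1 := Real.rpow_le_one h3 h4 hμ0
      rw [norm_mul, Real.norm_of_nonneg h2.1, Real.norm_of_nonneg h5]
      calc W (1 / (u * β)) * (1 - u ^ 2) ^ μ ≤ M * 1 := mul_le_mul h2.2 h6 h5 hM
        _ = M := mul_one M
    have h2 : volume.real (Ioo (0 : ℝ) (min 1 (b / β))) ≤ 1 := by
      have h3 : 0 < min 1 (b / β) := lt_min one_pos (by positivity)
      rw [Real.volume_real_Ioo_of_le h3.le, sub_zero]
      exact min_le_left _ _
    calc _ ≤ _ := le_abs_self _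
      _ ≤ M * volume.real (Ioo (0 : ℝ) (min 1 (b / β))) := h1
      _ ≤ M * 1 := mul_le_mul_of_nonneg_left h2 hM
      _ = M := mul_one M
  have hFi : Integrable (Function.uncurry F)
      ((volume.restrict (Ioi (1 / b))).prod (volume.restrict (Ioi 0))) := by
    rw [integrable_prod_iff' hFm.aestronglyMeasurable]
    constructor
    · refine (ae_restrict_iff' measurableSet_Ioi).2 (Filter.Eventually.of_forall fun β hβ => ?_)
      exact hfibi β hβ
    · refine Integrable.mono' (hDi.const_mul M)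
        (hFm.norm.stronglyMeasurable.integral_prod_left').aestronglyMeasurable ?_
      refine (ae_restrict_iff' measurableSet_Ioi).2 (Filter.Eventually.of_forall fun β hβ => ?_)
      have hβ0 : 0 < β := hβ
      have h1 : ∫ s in Ioi (1 / b), ‖Function.uncurry F (s, β)‖ = ∫ s in Ioi (1 / b), F s β := by
        refine setIntegral_congr_fun measurableSet_Ioi fun s hs => ?_
        exact Real.norm_of_nonneg (hF0 s β (hb'.trans hs) hβ0)
      rw [Real.norm_of_nonneg (integral_nonneg fun s => norm_nonneg _), h1, hfib β hβ0, mul_comm M]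
      exact mul_le_mul_of_nonneg_left (hI β hβ0) (hD0 β hβ0)
  have hrow : ∀ s, s ∈ Ioi (1 / b) → ∫ β in Ioi (0 : ℝ), F s β =
      (s ^ 2)⁻¹ * W s * ∫ β in Ioi (1 / s), wb s β ^ μ * (β⁻¹ * D β) := by
    intro s hs
    have hs0 : 0 < s := hb'.trans hs
    have h1 : ∫ β in Ioi (0 : ℝ), F s β = ∫ β in Ioi (0 : ℝ),
        (Ioi (1 / s)).indicator (fun β => (s ^ 2)⁻¹ * W s * (wb s β ^ μ * (β⁻¹ * D β))) β := by
      refine setIntegral_congr_fun measurableSet_Ioi fun β hβ => ?_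
      show (if 1 / s < β then (s ^ 2)⁻¹ * W s * (wb s β ^ μ * (β⁻¹ * D β)) else 0) = _
      by_cases h : 1 / s < β
      · rw [if_pos h, indicator_of_mem (show β ∈ Ioi (1 / s) from h)]
      · rw [if_neg h, indicator_of_notMem (show β ∉ Ioi (1 / s) from h)]
    rw [h1, setIntegral_indicator measurableSet_Ioi, Ioi_inter_Ioi,
      sup_eq_right.2 (one_div_pos.2 hs0).le, integral_const_mul]
  constructor
  · have h1 := hFi.integral_prod_left
    refine h1.congr ?_
    refine (ae_restrict_iff' measurableSet_Ioi).2 (Filter.Eventually.of_forall fun s hs => ?_)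
    exact hrow s hs
  · have h1 : ∫ s in Ioi (1 / b), (s ^ 2)⁻¹ * W s *
        ∫ β in Ioi (1 / s), wb s β ^ μ * (β⁻¹ * D β) =
        ∫ s in Ioi (1 / b), ∫ β in Ioi (0 : ℝ), F s β :=
      (setIntegral_congr_fun measurableSet_Ioi fun s hs => hrow s hs).symm
    rw [h1, integral_integral_swap hFi]
    exact setIntegral_congr_fun measurableSet_Ioi fun β hβ => hfib β hβ

end Pool.Agent.REV.H60
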